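import Mathlib
import Pool.Agent.H572.AE.Stm

/-!
# Project AE, piece RED: the state sum of the graph with two vertices
-/

set_option autoImplicit false

namespace H572AE.RED

open Finset H572AE W719AEC

theorem labels_eq (r : ℕ) : labels 2 r = (Ico 1 r).image (fun x => ![0, x]) := by
  ext a
  unfold labels
  rw [mem_filter, Fintype.mem_piFinset, mem_image]
  constructor
  · rintro ⟨h1, h2, h3⟩
    have h0 := h3 0 rfl
    have h01 := h2 0 1 (by decide)
    refine ⟨a 1, ?_, ?_⟩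
    · rw [mem_Ico]
      exact ⟨by omega, mem_range.1 (h1 1)⟩
    · funext i
      fin_cases i
      · exact h0.symm
      · rfl
  · rintro ⟨x, hx, rfl⟩
    rw [mem_Ico] at hx
    refine ⟨?_, ?_, ?_⟩
    · intro i
      fin_cases i
      · show 0 ∈ range r
        rw [mem_range]; omega
      · show x ∈ range r
        rw [mem_range]; omega
    · intro i j hij
      fin_cases i <;> fin_cases j
      · exact absurd hij (by decide)
      · show 0 < x
        omega
      · exact absurd hij (by decide)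
      · exact absurd hij (by decide)
    · intro i hi
      fin_cases i
      · rfl
      · exact absurd hi (by decide)

theorem sum_labels (r : ℕ) (F : (Fin 2 → ℕ) → ℂ) :
    ∑ a ∈ labels 2 r, F a = ∑ x ∈ Ico 1 r, F ![0, x] := by
  rw [labels_eq, sum_image]
  intro x _ y _ hxy
  exact congrFun hxy 1

theorem sum_two (L : Finset (Fin 2 → ℕ)) (G : (Fin 2 → (Fin 2 → ℕ)) → ℂ) :
    ∑ x ∈ Fintype.piFinset (fun _ : Fin 2 => L), G x = ∑ a ∈ L, ∑ b ∈ L, G ![a, b] := by
  rw [← sum_product']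
  refine sum_nbij' (fun x => (x 0, x 1)) (fun p => ![p.1, p.2]) ?_ ?_ ?_ ?_ ?_
  · intro x hx
    rw [Fintype.mem_piFinset] at hx
    exact mem_product.2 ⟨hx 0, hx 1⟩
  · intro p hp
    rw [mem_product] at hp
    rw [Fintype.mem_piFinset]
    intro i
    fin_cases i
    · exact hp.1
    · exact hp.2
  · intro x _
    funext i
    fin_cases i <;> rfl
  · intro p _
    rfl
  · intro x _
    refine congrArg G ?_
    funext i
    fin_cases i <;> rfl

/-- the real number -/
noncomputable def Sr (r x y : ℕ) : ℝ :=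
  Real.sqrt 2 / Real.sqrt r * Real.sin (Real.pi * x * y / r)

theorem Smat_eq (r x y : ℕ) (hr : 2 ≤ r) : Smat 2 r ![0, x] ![0, y] = ((Sr r x y : ℝ) : ℂ) := by
  have hr0 : (r : ℂ) ≠ 0 := by
    have : r ≠ 0 := by omega
    exact_mod_cast this
  set z : ℂ := Real.pi * x * y / r with hz
  have h1 : Complex.exp (2 * Real.pi * Complex.I * ((x : ℂ) * (y : ℂ) / (2 * r))) =
      Complex.exp (z * Complex.I) := by
    congr 1
    rw [hz]
    field_simp
  have h2 : Complex.exp (-(2 * Real.pi * Complex.I * ((x : ℂ) * (y : ℂ) / r))) =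
      Complex.exp (-z * Complex.I) * Complex.exp (-z * Complex.I) := by
    rw [← Complex.exp_add]
    congr 1
    rw [hz]
    ring
  have h3 : Complex.exp (z * Complex.I) * Complex.exp (-z * Complex.I) = 1 := by
    rw [← Complex.exp_add]
    rw [show z * Complex.I + -z * Complex.I = 0 by ring, Complex.exp_zero]
  have h4 : Smat 2 r ![0, x] ![0, y] = Complex.I / ((Real.sqrt 2 * Real.sqrt r : ℝ) : ℂ) *
      Complex.exp (2 * Real.pi * Complex.I * ((x : ℂ) * (y : ℂ) / (2 * r))) *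
      (Complex.exp (-(2 * Real.pi * Complex.I * ((x : ℂ) * (y : ℂ) / r))) - 1) := by
    unfold Smat
    rw [Matrix.det_fin_two]
    simp
  have hs : Complex.sin z = ((Real.sin (Real.pi * x * y / r) : ℝ) : ℂ) := by
    rw [hz]
    push_cast
    rfl
  have hs2 : ((Real.sqrt 2 : ℝ) : ℂ) * ((Real.sqrt 2 : ℝ) : ℂ) = 2 := by
    rw [← Complex.ofReal_mul, Real.mul_self_sqrt (by norm_num)]
    norm_num
  have hs0 : ((Real.sqrt 2 : ℝ) : ℂ) ≠ 0 := by
    intro h
    rw [h, mul_zero] at hs2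
    norm_num at hs2
  have hsr : ((Real.sqrt r : ℝ) : ℂ) ≠ 0 := by
    rw [Complex.ofReal_ne_zero]
    have : (0 : ℝ) < r := by
      have : 0 < r := by omega
      exact_mod_cast this
    exact (Real.sqrt_pos.2 this).ne'
  have key : Complex.I * Complex.exp (z * Complex.I) *
      (Complex.exp (-z * Complex.I) * Complex.exp (-z * Complex.I) - 1) = 2 * Complex.sin z := by
    rw [Complex.sin]
    linear_combination (Complex.I * Complex.exp (-z * Complex.I)) * h3
  rw [h4, h1, h2]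
  unfold Sr
  rw [Complex.ofReal_mul, Complex.ofReal_mul (Real.sqrt 2 / Real.sqrt r), Complex.ofReal_div, ← hs]
  rw [div_mul_eq_mul_div, div_mul_eq_mul_div, key, div_mul_eq_mul_div, div_eq_div_iff
    (mul_ne_zero hs0 hsr) hsr]
  linear_combination (-(Complex.sin z * ((Real.sqrt r : ℝ) : ℂ))) * hs2

theorem Sr_sq (r x y : ℕ) (hr : 2 ≤ r) :
    Sr r x y ^ 2 = 2 / r * Real.sin (Real.pi * x * y / r) ^ 2 := by
  unfold Sr
  rw [mul_pow, div_pow, Real.sq_sqrt (by norm_num), Real.sq_sqrt (by positivity)]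

theorem Sr_pow (r x g : ℕ) (hr : 2 ≤ r) :
    ((Sr r 1 x : ℝ) : ℂ) ^ (2 - 2 * (g : ℤ) - ((2 : ℕ) : ℤ)) =
      ((((r : ℝ) / 2) ^ g / Real.sin (Real.pi * x / r) ^ (2 * g) : ℝ) : ℂ) := by
  have h1 : (2 - 2 * (g : ℤ) - ((2 : ℕ) : ℤ)) = -((2 * g : ℕ) : ℤ) := by push_cast; ring
  rw [h1, zpow_neg, zpow_natCast, pow_mul, ← Complex.ofReal_pow, Sr_sq r 1 x hr,
    ← Complex.ofReal_pow, ← Complex.ofReal_inv]
  congr 1
  rw [mul_pow, mul_inv, ← inv_pow, inv_div, ← pow_mul, Nat.cast_one, mul_one]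
  rw [← div_eq_mul_inv]

theorem main : S_red := by
  intro g h r hg hh hr
  unfold PlumbingGraph.Z
  rw [sum_two, sum_labels]
  unfold Ts
  rw [Finset.mul_sum, Complex.ofReal_sum]
  refine sum_congr rfl fun x hx => ?_
  rw [sum_labels, Finset.mul_sum, Complex.ofReal_sum]
  refine sum_congr rfl fun y hy => ?_
  have hd0 : (pairGraph g h).degree 0 = 2 := by
    have : (univ.filter fun e : Fin 2 => (![0, 0] : Fin 2 → Fin 2) e = 0).card +
      (univ.filter fun e : Fin 2 => (![1, 1] : Fin 2 → Fin 2) e = 0).card = 2 := by decide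
    exact this
  have hd1 : (pairGraph g h).degree 1 = 2 := by
    have : (univ.filter fun e : Fin 2 => (![0, 0] : Fin 2 → Fin 2) e = 1).card +
      (univ.filter fun e : Fin 2 => (![1, 1] : Fin 2 → Fin 2) e = 1).card = 2 := by decide
    exact this
  have ht : triv 2 = ![0, 1] := by
    funext i
    fin_cases i <;> rfl
  rw [Fin.prod_univ_two, Fin.prod_univ_two, hd0, hd1, ht]
  have e0 : (pairGraph g h).euler 0 = 0 := rfl
  have e1 : (pairGraph g h).euler 1 = 0 := rfl
  have g0 : (pairGraph g h).genus 0 = g := rfl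
  have g1 : (pairGraph g h).genus 1 = h := rfl
  have s0 : (pairGraph g h).src 0 = 0 := rfl
  have s1 : (pairGraph g h).src 1 = 0 := rfl
  have t0 : (pairGraph g h).tgt 0 = 1 := rfl
  have t1 : (pairGraph g h).tgt 1 = 1 := rfl
  have p0 : (pairGraph g h).positive 0 = true := rfl
  have p1 : (pairGraph g h).positive 1 = false := rfl
  rw [e0, e1, g0, g1, s0, s1, t0, t1, p0, p1]
  have v0 : (![![0, x], ![0, y]] : Fin 2 → Fin 2 → ℕ) 0 = ![0, x] := rfl
  have v1 : (![![0, x], ![0, y]] : Fin 2 → Fin 2 → ℕ) 1 = ![0, y] := rfl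
  rw [v0, v1, zpow_zero, zpow_zero, one_mul, one_mul, Smat_eq r 1 x hr, Smat_eq r 1 y hr,
    Smat_eq r x y hr, Sr_pow r x g hr, Sr_pow r y h hr]
  rw [if_pos rfl, if_neg (by decide), Complex.conj_ofReal, ← Complex.ofReal_mul,
    ← Complex.ofReal_mul, ← Complex.ofReal_mul]
  congr 1
  have h1 : Sr r x y * Sr r x y = 2 / r * Real.sin (Real.pi * x * y / r) ^ 2 := by
    rw [← pow_two, Sr_sq r x y hr]
  rw [h1]
  obtain ⟨m, hm⟩ : ∃ m, g + h = m + 1 := ⟨g + h - 1, by omega⟩
  have h2 : ((r : ℝ) / 2) ^ g * ((r : ℝ) / 2) ^ h = ((r : ℝ) / 2) ^ (g + h - 1) * (r / 2) := by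
    rw [← pow_add, hm, Nat.add_sub_cancel, pow_succ]
  have hr0 : (r : ℝ) ≠ 0 := by
    have : r ≠ 0 := by omega
    exact_mod_cast this
  have h3 : ((r : ℝ) / 2) * (2 / r) = 1 := by field_simp
  rw [div_mul_div_comm, h2]
  calc ((r : ℝ) / 2) ^ (g + h - 1) * (r / 2) /
        (Real.sin (Real.pi * x / r) ^ (2 * g) * Real.sin (Real.pi * y / r) ^ (2 * h)) *
          (2 / r * Real.sin (Real.pi * x * y / r) ^ 2)
      = ((r : ℝ) / 2) ^ (g + h - 1) * (Real.sin (Real.pi * x * y / r) ^ 2 /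
        (Real.sin (Real.pi * x / r) ^ (2 * g) * Real.sin (Real.pi * y / r) ^ (2 * h))) *
        ((r / 2) * (2 / r)) := by ring
    _ = _ := by rw [h3, mul_one]

end H572AE.RED
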